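import Pool.Agent.helper12.GP.Pm

/-!
Generated: constants of the corner programs of the table E8a.
-/

namespace Pool.Agent.helper12.KD

open Pool.Agent.helper31.IA (Z)
open Pool.Agent.helper12.GP

def p0 : Pm where
  ec := ⟨114621939712, 0, 0, 0⟩
  bc := ⟨0, 0, 0, 0⟩
  nn := ⟨1099511627776, 0, 0, 0⟩
  tj := ⟨4398046511104, 0, 0, 0⟩
  ca := ⟨1099511627776, 0, 0, 0⟩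
  cb := ⟨879662989312, 0, 0, 0⟩
  cc := ⟨0, 0, 0, 0⟩
  ax := ⟨0, 0, 0, 0⟩
  ay := ⟨0, 0, 0, 0⟩
  xa := ⟨0, 0, 0, 0⟩
  C2 := ⟨0, 0, 0, 0⟩
  wr := ⟨0, 946234982400, 0, 0⟩
  wi := ⟨5872294035456, 0, 0, 0⟩
  w1 := ⟨0, 4535485464576, 0, 0⟩
  h000 := ⟨0, 112292417920, 0, 0⟩
  h001 := ⟨64024346880, 0, 0, 0⟩
  h002 := ⟨0, 33810010432, 0, 0⟩
  h003 := ⟨2679238784, 0, 0, 0⟩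
  h010 := ⟨0, 1231377189440, 0, 0⟩
  h011 := ⟨430572355136, 0, 0, 0⟩
  h012 := ⟨0, 38983266880, 0, 0⟩
  h020 := ⟨240202372288, 0, 0, 0⟩
  h021 := ⟨6450256265280, 0, 0, 0⟩
  h030 := ⟨0, 29625738547008, 0, 0⟩
  h100 := ⟨13177875584, 0, 0, 0⟩
  h101 := ⟨0, 5980397184, 0, 0⟩
  h102 := ⟨0, 162226176, 0, 0⟩
  h110 := ⟨161662807104, 0, 0, 0⟩
  h111 := ⟨0, 149285636032, 0, 0⟩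
  h120 := ⟨0, 74338941632, 0, 0⟩
  h200 := ⟨0, 527565568, 0, 0⟩
  h201 := ⟨125404288, 0, 0, 0⟩
  h210 := ⟨0, 11029065088, 0, 0⟩
  h300 := ⟨0, 95452416, 0, 0⟩
  h400 := ⟨10674432, 0, 0, 0⟩
  m000 := ⟨1088292126720, 0, 0, 0⟩
  m001 := ⟨0, 13733986304, 0, 0⟩
  m002 := ⟨91333459968, 0, 0, 0⟩
  m010 := ⟨434556436480, 0, 0, 0⟩
  m100 := ⟨70376030208, 0, 0, 0⟩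
  m101 := ⟨2868969472, 0, 0, 0⟩
  m110 := ⟨581940215808, 0, 0, 0⟩
  m200 := ⟨0, 3510566912, 0, 0⟩
  m300 := ⟨282525696, 0, 0, 0⟩
  a00 := ⟨80929751040, 0, 0, 0⟩
  a01 := ⟨114576261120, 0, 0, 0⟩
  a02 := ⟨0, 593234427904, 0, 0⟩
  a03 := ⟨152704450560, 0, 0, 0⟩
  a10 := ⟨232781185024, 0, 0, 0⟩
  a11 := ⟨0, 1097389899776, 0, 0⟩
  b00 := ⟨72045625344, 0, 0, 0⟩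
  b01 := ⟨74389782528, 0, 0, 0⟩
  b02 := ⟨0, 478562811904, 0, 0⟩
  b03 := ⟨245383888896, 0, 0, 0⟩
  b10 := ⟨254759796736, 0, 0, 0⟩
  b11 := ⟨0, 974103576576, 0, 0⟩
  t00 := ⟨823490117632, 0, 0, 0⟩
  t01 := ⟨146996461568, 0, 0, 0⟩
  t02 := ⟨0, 3733055209472, 0, 0⟩
  t03 := ⟨10646029271040, 0, 0, 0⟩
  t10 := ⟨0, 273234526208, 0, 0⟩
  t11 := ⟨8345026560000, 0, 0, 0⟩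
  s00 := ⟨1327838658560, 0, 0, 0⟩
  s01 := ⟨1427614072832, 0, 0, 0⟩
  s02 := ⟨3605500067840, 0, 0, 0⟩
  s03 := ⟨0, 16427901386752, 0, 0⟩
  s10 := ⟨0, 4184561745920, 0, 0⟩
  s11 := ⟨0, 390961496064, 0, 0⟩
  g00 := ⟨299457937536, 0, 0, 0⟩
  g01 := ⟨0, 389164506368, 0, 0⟩
  g10 := ⟨3557182232064, 0, 0, 0⟩
  g11 := ⟨0, 0, 0, 0⟩
  f00 := ⟨2968280557248, 0, 0, 0⟩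
  f01 := ⟨503056542592, 0, 0, 0⟩
  f10 := ⟨32651557279744, 0, 0, 0⟩
  f11 := ⟨0, 0, 0, 0⟩
  l000 := ⟨0, 0, 0, 0⟩
  l001 := ⟨0, 0, 0, 0⟩
  l002 := ⟨0, 0, 0, 0⟩
  l010 := ⟨0, 0, 0, 0⟩
  l011 := ⟨0, 0, 0, 0⟩
  l020 := ⟨0, 0, 0, 0⟩
  l100 := ⟨0, 0, 0, 0⟩
  l101 := ⟨0, 0, 0, 0⟩
  l102 := ⟨0, 0, 0, 0⟩
  l110 := ⟨0, 0, 0, 0⟩
  l111 := ⟨0, 0, 0, 0⟩
  l120 := ⟨0, 0, 0, 0⟩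
  l200 := ⟨0, 0, 0, 0⟩
  l201 := ⟨0, 0, 0, 0⟩
  l210 := ⟨0, 0, 0, 0⟩
  l300 := ⟨0, 0, 0, 0⟩
  l301 := ⟨0, 0, 0, 0⟩
  l310 := ⟨0, 0, 0, 0⟩
  l400 := ⟨0, 0, 0, 0⟩
  l401 := ⟨0, 0, 0, 0⟩
  l410 := ⟨0, 0, 0, 0⟩
  l500 := ⟨0, 0, 0, 0⟩
  l600 := ⟨0, 0, 0, 0⟩
  l700 := ⟨0, 0, 0, 0⟩
  q00 := ⟨0, 0, 0, 0⟩
  q01 := ⟨0, 0, 0, 0⟩
  q02 := ⟨0, 0, 0, 0⟩
  q03 := ⟨0, 0, 0, 0⟩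
  q10 := ⟨0, 0, 0, 0⟩
  q11 := ⟨0, 0, 0, 0⟩
  q12 := ⟨0, 0, 0, 0⟩
  q20 := ⟨0, 0, 0, 0⟩
  q21 := ⟨0, 0, 0, 0⟩
  q30 := ⟨0, 0, 0, 0⟩
  n000 := ⟨0, 0, 0, 0⟩
  n001 := ⟨0, 0, 0, 0⟩
  n002 := ⟨0, 0, 0, 0⟩
  n010 := ⟨0, 0, 0, 0⟩
  n011 := ⟨0, 0, 0, 0⟩
  n020 := ⟨0, 0, 0, 0⟩
  n100 := ⟨0, 0, 0, 0⟩
  n101 := ⟨0, 0, 0, 0⟩
  n110 := ⟨0, 0, 0, 0⟩
  n200 := ⟨0, 0, 0, 0⟩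
  n201 := ⟨0, 0, 0, 0⟩
  n210 := ⟨0, 0, 0, 0⟩
  n300 := ⟨0, 0, 0, 0⟩
  n400 := ⟨0, 0, 0, 0⟩
  n500 := ⟨0, 0, 0, 0⟩
  e00 := ⟨0, 0, 0, 0⟩
  e01 := ⟨0, 0, 0, 0⟩
  e02 := ⟨0, 0, 0, 0⟩
  e03 := ⟨0, 0, 0, 0⟩
  e10 := ⟨0, 0, 0, 0⟩
  e11 := ⟨0, 0, 0, 0⟩
  B1 := 0

def p1 : Pm where
  ec := ⟨114621939712, 0, 0, 0⟩
  bc := ⟨0, 0, 0, 0⟩
  nn := ⟨2199023255552, 0, 0, 0⟩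
  tj := ⟨6597069766656, 0, 0, 0⟩
  ca := ⟨879662989312, 0, 0, 0⟩
  cb := ⟨659814350848, 0, 0, 0⟩
  cc := ⟨0, 0, 0, 0⟩
  ax := ⟨0, 0, 0, 0⟩
  ay := ⟨0, 0, 0, 0⟩
  xa := ⟨0, 0, 0, 0⟩
  C2 := ⟨0, 0, 0, 0⟩
  wr := ⟨0, 946234982400, 0, 0⟩
  wi := ⟨5872294035456, 0, 0, 0⟩
  w1 := ⟨0, 4535485464576, 0, 0⟩
  h000 := ⟨0, 112292417920, 0, 0⟩
  h001 := ⟨64024346880, 0, 0, 0⟩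
  h002 := ⟨0, 33810010432, 0, 0⟩
  h003 := ⟨2679238784, 0, 0, 0⟩
  h010 := ⟨0, 1231377189440, 0, 0⟩
  h011 := ⟨430572355136, 0, 0, 0⟩
  h012 := ⟨0, 38983266880, 0, 0⟩
  h020 := ⟨240202372288, 0, 0, 0⟩
  h021 := ⟨6450256265280, 0, 0, 0⟩
  h030 := ⟨0, 29625738547008, 0, 0⟩
  h100 := ⟨13177875584, 0, 0, 0⟩
  h101 := ⟨0, 5980397184, 0, 0⟩
  h102 := ⟨0, 162226176, 0, 0⟩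
  h110 := ⟨161662807104, 0, 0, 0⟩
  h111 := ⟨0, 149285636032, 0, 0⟩
  h120 := ⟨0, 74338941632, 0, 0⟩
  h200 := ⟨0, 527565568, 0, 0⟩
  h201 := ⟨125404288, 0, 0, 0⟩
  h210 := ⟨0, 11029065088, 0, 0⟩
  h300 := ⟨0, 95452416, 0, 0⟩
  h400 := ⟨10674432, 0, 0, 0⟩
  m000 := ⟨1090713878528, 0, 0, 0⟩
  m001 := ⟨0, 11107041280, 0, 0⟩
  m002 := ⟨101230706688, 0, 0, 0⟩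
  m010 := ⟨220464873472, 0, 0, 0⟩
  m100 := ⟨69180850176, 0, 0, 0⟩
  m101 := ⟨1460797440, 0, 0, 0⟩
  m110 := ⟨560273948672, 0, 0, 0⟩
  m200 := ⟨0, 3114663936, 0, 0⟩
  m300 := ⟨204603392, 0, 0, 0⟩
  a00 := ⟨72045625344, 0, 0, 0⟩
  a01 := ⟨74389782528, 0, 0, 0⟩
  a02 := ⟨0, 478562811904, 0, 0⟩
  a03 := ⟨245383888896, 0, 0, 0⟩
  a10 := ⟨254759796736, 0, 0, 0⟩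
  a11 := ⟨0, 974103576576, 0, 0⟩
  b00 := ⟨64103645184, 0, 0, 0⟩
  b01 := ⟨39584989184, 0, 0, 0⟩
  b02 := ⟨0, 328717434880, 0, 0⟩
  b03 := ⟨171479662592, 0, 0, 0⟩
  b10 := ⟨261481365504, 0, 0, 0⟩
  b11 := ⟨0, 835814227968, 0, 0⟩
  t00 := ⟨727291854848, 0, 0, 0⟩
  t01 := ⟨273157980160, 0, 0, 0⟩
  t02 := ⟨0, 3656855191552, 0, 0⟩
  t03 := ⟨10760934981632, 0, 0, 0⟩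
  t10 := ⟨534552772608, 0, 0, 0⟩
  t11 := ⟨3900325101568, 0, 0, 0⟩
  s00 := ⟨2151328776192, 0, 0, 0⟩
  s01 := ⟨1574610534400, 0, 0, 0⟩
  s02 := ⟨0, 127555141632, 0, 0⟩
  s03 := ⟨0, 5781872115712, 0, 0⟩
  s10 := ⟨0, 4457796272128, 0, 0⟩
  s11 := ⟨7954065063936, 0, 0, 0⟩
  g00 := ⟨299457937536, 0, 0, 0⟩
  g01 := ⟨0, 389164506368, 0, 0⟩
  g10 := ⟨3557182232064, 0, 0, 0⟩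
  g11 := ⟨0, 0, 0, 0⟩
  f00 := ⟨2968280557248, 0, 0, 0⟩
  f01 := ⟨503056542592, 0, 0, 0⟩
  f10 := ⟨32651557279744, 0, 0, 0⟩
  f11 := ⟨0, 0, 0, 0⟩
  l000 := ⟨0, 0, 0, 0⟩
  l001 := ⟨0, 0, 0, 0⟩
  l002 := ⟨0, 0, 0, 0⟩
  l010 := ⟨0, 0, 0, 0⟩
  l011 := ⟨0, 0, 0, 0⟩
  l020 := ⟨0, 0, 0, 0⟩
  l100 := ⟨0, 0, 0, 0⟩
  l101 := ⟨0, 0, 0, 0⟩
  l102 := ⟨0, 0, 0, 0⟩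
  l110 := ⟨0, 0, 0, 0⟩
  l111 := ⟨0, 0, 0, 0⟩
  l120 := ⟨0, 0, 0, 0⟩
  l200 := ⟨0, 0, 0, 0⟩
  l201 := ⟨0, 0, 0, 0⟩
  l210 := ⟨0, 0, 0, 0⟩
  l300 := ⟨0, 0, 0, 0⟩
  l301 := ⟨0, 0, 0, 0⟩
  l310 := ⟨0, 0, 0, 0⟩
  l400 := ⟨0, 0, 0, 0⟩
  l401 := ⟨0, 0, 0, 0⟩
  l410 := ⟨0, 0, 0, 0⟩
  l500 := ⟨0, 0, 0, 0⟩
  l600 := ⟨0, 0, 0, 0⟩
  l700 := ⟨0, 0, 0, 0⟩
  q00 := ⟨0, 0, 0, 0⟩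
  q01 := ⟨0, 0, 0, 0⟩
  q02 := ⟨0, 0, 0, 0⟩
  q03 := ⟨0, 0, 0, 0⟩
  q10 := ⟨0, 0, 0, 0⟩
  q11 := ⟨0, 0, 0, 0⟩
  q12 := ⟨0, 0, 0, 0⟩
  q20 := ⟨0, 0, 0, 0⟩
  q21 := ⟨0, 0, 0, 0⟩
  q30 := ⟨0, 0, 0, 0⟩
  n000 := ⟨0, 0, 0, 0⟩
  n001 := ⟨0, 0, 0, 0⟩
  n002 := ⟨0, 0, 0, 0⟩
  n010 := ⟨0, 0, 0, 0⟩
  n011 := ⟨0, 0, 0, 0⟩
  n020 := ⟨0, 0, 0, 0⟩
  n100 := ⟨0, 0, 0, 0⟩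
  n101 := ⟨0, 0, 0, 0⟩
  n110 := ⟨0, 0, 0, 0⟩
  n200 := ⟨0, 0, 0, 0⟩
  n201 := ⟨0, 0, 0, 0⟩
  n210 := ⟨0, 0, 0, 0⟩
  n300 := ⟨0, 0, 0, 0⟩
  n400 := ⟨0, 0, 0, 0⟩
  n500 := ⟨0, 0, 0, 0⟩
  e00 := ⟨0, 0, 0, 0⟩
  e01 := ⟨0, 0, 0, 0⟩
  e02 := ⟨0, 0, 0, 0⟩
  e03 := ⟨0, 0, 0, 0⟩
  e10 := ⟨0, 0, 0, 0⟩
  e11 := ⟨0, 0, 0, 0⟩
  B1 := 0

def p2 : Pm where
  ec := ⟨114621939712, 0, 0, 0⟩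
  bc := ⟨0, 0, 0, 0⟩
  nn := ⟨3298534883328, 0, 0, 0⟩
  tj := ⟨8796093022208, 0, 0, 0⟩
  ca := ⟨659814350848, 0, 0, 0⟩
  cb := ⟨494726545408, 0, 0, 0⟩
  cc := ⟨0, 0, 0, 0⟩
  ax := ⟨0, 0, 0, 0⟩
  ay := ⟨0, 0, 0, 0⟩
  xa := ⟨0, 0, 0, 0⟩
  C2 := ⟨0, 0, 0, 0⟩
  wr := ⟨0, 946234982400, 0, 0⟩
  wi := ⟨5872294035456, 0, 0, 0⟩
  w1 := ⟨0, 4535485464576, 0, 0⟩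
  h000 := ⟨0, 112292417920, 0, 0⟩
  h001 := ⟨64024346880, 0, 0, 0⟩
  h002 := ⟨0, 33810010432, 0, 0⟩
  h003 := ⟨2679238784, 0, 0, 0⟩
  h010 := ⟨0, 1231377189440, 0, 0⟩
  h011 := ⟨430572355136, 0, 0, 0⟩
  h012 := ⟨0, 38983266880, 0, 0⟩
  h020 := ⟨240202372288, 0, 0, 0⟩
  h021 := ⟨6450256265280, 0, 0, 0⟩
  h030 := ⟨0, 29625738547008, 0, 0⟩
  h100 := ⟨13177875584, 0, 0, 0⟩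
  h101 := ⟨0, 5980397184, 0, 0⟩
  h102 := ⟨0, 162226176, 0, 0⟩
  h110 := ⟨161662807104, 0, 0, 0⟩
  h111 := ⟨0, 149285636032, 0, 0⟩
  h120 := ⟨0, 74338941632, 0, 0⟩
  h200 := ⟨0, 527565568, 0, 0⟩
  h201 := ⟨125404288, 0, 0, 0⟩
  h210 := ⟨0, 11029065088, 0, 0⟩
  h300 := ⟨0, 95452416, 0, 0⟩
  h400 := ⟨10674432, 0, 0, 0⟩
  m000 := ⟨1092552097792, 0, 0, 0⟩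
  m001 := ⟨0, 4630183936, 0, 0⟩
  m002 := ⟨87351164928, 0, 0, 0⟩
  m010 := ⟨80955310080, 0, 0, 0⟩
  m100 := ⟨67453452288, 0, 0, 0⟩
  m101 := ⟨1721171968, 0, 0, 0⟩
  m110 := ⟨583549648896, 0, 0, 0⟩
  m200 := ⟨0, 2651455488, 0, 0⟩
  m300 := ⟨141426688, 0, 0, 0⟩
  a00 := ⟨64103645184, 0, 0, 0⟩
  a01 := ⟨39584989184, 0, 0, 0⟩
  a02 := ⟨0, 328717434880, 0, 0⟩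
  a03 := ⟨171479662592, 0, 0, 0⟩
  a10 := ⟨261481365504, 0, 0, 0⟩
  a11 := ⟨0, 835814227968, 0, 0⟩
  b00 := ⟨56876335104, 0, 0, 0⟩
  b01 := ⟨12419268608, 0, 0, 0⟩
  b02 := ⟨0, 181424422912, 0, 0⟩
  b03 := ⟨48188030976, 0, 0, 0⟩
  b10 := ⟨260046979072, 0, 0, 0⟩
  b11 := ⟨0, 680121401344, 0, 0⟩
  t00 := ⟨646631915520, 0, 0, 0⟩
  t01 := ⟨128096337920, 0, 0, 0⟩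
  t02 := ⟨0, 555098570752, 0, 0⟩
  t03 := ⟨2536518582272, 0, 0, 0⟩
  t10 := ⟨1058819670016, 0, 0, 0⟩
  t11 := ⟨2244848058368, 0, 0, 0⟩
  s00 := ⟨2878620631040, 0, 0, 0⟩
  s01 := ⟨1847768514560, 0, 0, 0⟩
  s02 := ⟨0, 3784410333184, 0, 0⟩
  s03 := ⟨4979062865920, 0, 0, 0⟩
  s10 := ⟨0, 3923243499520, 0, 0⟩
  s11 := ⟨11854390165504, 0, 0, 0⟩
  g00 := ⟨299457937536, 0, 0, 0⟩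
  g01 := ⟨0, 389164506368, 0, 0⟩
  g10 := ⟨3557182232064, 0, 0, 0⟩
  g11 := ⟨0, 0, 0, 0⟩
  f00 := ⟨2968280557248, 0, 0, 0⟩
  f01 := ⟨503056542592, 0, 0, 0⟩
  f10 := ⟨32651557279744, 0, 0, 0⟩
  f11 := ⟨0, 0, 0, 0⟩
  l000 := ⟨0, 0, 0, 0⟩
  l001 := ⟨0, 0, 0, 0⟩
  l002 := ⟨0, 0, 0, 0⟩
  l010 := ⟨0, 0, 0, 0⟩
  l011 := ⟨0, 0, 0, 0⟩
  l020 := ⟨0, 0, 0, 0⟩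
  l100 := ⟨0, 0, 0, 0⟩
  l101 := ⟨0, 0, 0, 0⟩
  l102 := ⟨0, 0, 0, 0⟩
  l110 := ⟨0, 0, 0, 0⟩
  l111 := ⟨0, 0, 0, 0⟩
  l120 := ⟨0, 0, 0, 0⟩
  l200 := ⟨0, 0, 0, 0⟩
  l201 := ⟨0, 0, 0, 0⟩
  l210 := ⟨0, 0, 0, 0⟩
  l300 := ⟨0, 0, 0, 0⟩
  l301 := ⟨0, 0, 0, 0⟩
  l310 := ⟨0, 0, 0, 0⟩
  l400 := ⟨0, 0, 0, 0⟩
  l401 := ⟨0, 0, 0, 0⟩
  l410 := ⟨0, 0, 0, 0⟩
  l500 := ⟨0, 0, 0, 0⟩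
  l600 := ⟨0, 0, 0, 0⟩
  l700 := ⟨0, 0, 0, 0⟩
  q00 := ⟨0, 0, 0, 0⟩
  q01 := ⟨0, 0, 0, 0⟩
  q02 := ⟨0, 0, 0, 0⟩
  q03 := ⟨0, 0, 0, 0⟩
  q10 := ⟨0, 0, 0, 0⟩
  q11 := ⟨0, 0, 0, 0⟩
  q12 := ⟨0, 0, 0, 0⟩
  q20 := ⟨0, 0, 0, 0⟩
  q21 := ⟨0, 0, 0, 0⟩
  q30 := ⟨0, 0, 0, 0⟩
  n000 := ⟨0, 0, 0, 0⟩
  n001 := ⟨0, 0, 0, 0⟩
  n002 := ⟨0, 0, 0, 0⟩
  n010 := ⟨0, 0, 0, 0⟩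
  n011 := ⟨0, 0, 0, 0⟩
  n020 := ⟨0, 0, 0, 0⟩
  n100 := ⟨0, 0, 0, 0⟩
  n101 := ⟨0, 0, 0, 0⟩
  n110 := ⟨0, 0, 0, 0⟩
  n200 := ⟨0, 0, 0, 0⟩
  n201 := ⟨0, 0, 0, 0⟩
  n210 := ⟨0, 0, 0, 0⟩
  n300 := ⟨0, 0, 0, 0⟩
  n400 := ⟨0, 0, 0, 0⟩
  n500 := ⟨0, 0, 0, 0⟩
  e00 := ⟨0, 0, 0, 0⟩
  e01 := ⟨0, 0, 0, 0⟩
  e02 := ⟨0, 0, 0, 0⟩
  e03 := ⟨0, 0, 0, 0⟩
  e10 := ⟨0, 0, 0, 0⟩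
  e11 := ⟨0, 0, 0, 0⟩
  B1 := 0

def p3 : Pm where
  ec := ⟨114621939712, 0, 0, 0⟩
  bc := ⟨0, 0, 0, 0⟩
  nn := ⟨4398046511104, 0, 0, 0⟩
  tj := ⟨10995116277760, 0, 0, 0⟩
  ca := ⟨494726545408, 0, 0, 0⟩
  cb := ⟨384936443904, 0, 0, 0⟩
  cc := ⟨0, 0, 0, 0⟩
  ax := ⟨0, 0, 0, 0⟩
  ay := ⟨0, 0, 0, 0⟩
  xa := ⟨0, 0, 0, 0⟩
  C2 := ⟨0, 0, 0, 0⟩
  wr := ⟨0, 946234982400, 0, 0⟩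
  wi := ⟨5872294035456, 0, 0, 0⟩
  w1 := ⟨0, 4535485464576, 0, 0⟩
  h000 := ⟨0, 112292417920, 0, 0⟩
  h001 := ⟨64024346880, 0, 0, 0⟩
  h002 := ⟨0, 33810010432, 0, 0⟩
  h003 := ⟨2679238784, 0, 0, 0⟩
  h010 := ⟨0, 1231377189440, 0, 0⟩
  h011 := ⟨430572355136, 0, 0, 0⟩
  h012 := ⟨0, 38983266880, 0, 0⟩
  h020 := ⟨240202372288, 0, 0, 0⟩
  h021 := ⟨6450256265280, 0, 0, 0⟩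
  h030 := ⟨0, 29625738547008, 0, 0⟩
  h100 := ⟨13177875584, 0, 0, 0⟩
  h101 := ⟨0, 5980397184, 0, 0⟩
  h102 := ⟨0, 162226176, 0, 0⟩
  h110 := ⟨161662807104, 0, 0, 0⟩
  h111 := ⟨0, 149285636032, 0, 0⟩
  h120 := ⟨0, 74338941632, 0, 0⟩
  h200 := ⟨0, 527565568, 0, 0⟩
  h201 := ⟨125404288, 0, 0, 0⟩
  h210 := ⟨0, 11029065088, 0, 0⟩
  h300 := ⟨0, 95452416, 0, 0⟩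
  h400 := ⟨10674432, 0, 0, 0⟩
  m000 := ⟨1094263439360, 0, 0, 0⟩
  m001 := ⟨0, 1370750976, 0, 0⟩
  m002 := ⟨71120650240, 0, 0, 0⟩
  m010 := ⟨34185805824, 0, 0, 0⟩
  m100 := ⟨65486454784, 0, 0, 0⟩
  m101 := ⟨1857486848, 0, 0, 0⟩
  m110 := ⟨597218885632, 0, 0, 0⟩
  m200 := ⟨0, 1974861824, 0, 0⟩
  m300 := ⟨63438848, 0, 0, 0⟩
  a00 := ⟨56876335104, 0, 0, 0⟩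
  a01 := ⟨12419268608, 0, 0, 0⟩
  a02 := ⟨0, 181424422912, 0, 0⟩
  a03 := ⟨48188030976, 0, 0, 0⟩
  a10 := ⟨260046979072, 0, 0, 0⟩
  a11 := ⟨0, 680121401344, 0, 0⟩
  b00 := ⟨50247499776, 0, 0, 0⟩
  b01 := ⟨0, 8087404544, 0, 0⟩
  b02 := ⟨0, 52204470272, 0, 0⟩
  b03 := ⟨0, 51247251456, 0, 0⟩
  b10 := ⟨251730395136, 0, 0, 0⟩
  b11 := ⟨0, 490509107200, 0, 0⟩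
  t00 := ⟨574846664704, 0, 0, 0⟩
  t01 := ⟨0, 21652439040, 0, 0⟩
  t02 := ⟨2458349862912, 0, 0, 0⟩
  t03 := ⟨0, 4822770122752, 0, 0⟩
  t10 := ⟨1240401510400, 0, 0, 0⟩
  t11 := ⟨3280359653376, 0, 0, 0⟩
  s00 := ⟨3525252546560, 0, 0, 0⟩
  s01 := ⟨1975864852480, 0, 0, 0⟩
  s02 := ⟨0, 4339508903936, 0, 0⟩
  s03 := ⟨7515581448192, 0, 0, 0⟩
  s10 := ⟨0, 2864423829504, 0, 0⟩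
  s11 := ⟨14099238223872, 0, 0, 0⟩
  g00 := ⟨299457937536, 0, 0, 0⟩
  g01 := ⟨0, 389164506368, 0, 0⟩
  g10 := ⟨3557182232064, 0, 0, 0⟩
  g11 := ⟨0, 0, 0, 0⟩
  f00 := ⟨2968280557248, 0, 0, 0⟩
  f01 := ⟨503056542592, 0, 0, 0⟩
  f10 := ⟨32651557279744, 0, 0, 0⟩
  f11 := ⟨0, 0, 0, 0⟩
  l000 := ⟨0, 0, 0, 0⟩
  l001 := ⟨0, 0, 0, 0⟩
  l002 := ⟨0, 0, 0, 0⟩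
  l010 := ⟨0, 0, 0, 0⟩
  l011 := ⟨0, 0, 0, 0⟩
  l020 := ⟨0, 0, 0, 0⟩
  l100 := ⟨0, 0, 0, 0⟩
  l101 := ⟨0, 0, 0, 0⟩
  l102 := ⟨0, 0, 0, 0⟩
  l110 := ⟨0, 0, 0, 0⟩
  l111 := ⟨0, 0, 0, 0⟩
  l120 := ⟨0, 0, 0, 0⟩
  l200 := ⟨0, 0, 0, 0⟩
  l201 := ⟨0, 0, 0, 0⟩
  l210 := ⟨0, 0, 0, 0⟩
  l300 := ⟨0, 0, 0, 0⟩
  l301 := ⟨0, 0, 0, 0⟩
  l310 := ⟨0, 0, 0, 0⟩
  l400 := ⟨0, 0, 0, 0⟩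
  l401 := ⟨0, 0, 0, 0⟩
  l410 := ⟨0, 0, 0, 0⟩
  l500 := ⟨0, 0, 0, 0⟩
  l600 := ⟨0, 0, 0, 0⟩
  l700 := ⟨0, 0, 0, 0⟩
  q00 := ⟨0, 0, 0, 0⟩
  q01 := ⟨0, 0, 0, 0⟩
  q02 := ⟨0, 0, 0, 0⟩
  q03 := ⟨0, 0, 0, 0⟩
  q10 := ⟨0, 0, 0, 0⟩
  q11 := ⟨0, 0, 0, 0⟩
  q12 := ⟨0, 0, 0, 0⟩
  q20 := ⟨0, 0, 0, 0⟩
  q21 := ⟨0, 0, 0, 0⟩
  q30 := ⟨0, 0, 0, 0⟩
  n000 := ⟨0, 0, 0, 0⟩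
  n001 := ⟨0, 0, 0, 0⟩
  n002 := ⟨0, 0, 0, 0⟩
  n010 := ⟨0, 0, 0, 0⟩
  n011 := ⟨0, 0, 0, 0⟩
  n020 := ⟨0, 0, 0, 0⟩
  n100 := ⟨0, 0, 0, 0⟩
  n101 := ⟨0, 0, 0, 0⟩
  n110 := ⟨0, 0, 0, 0⟩
  n200 := ⟨0, 0, 0, 0⟩
  n201 := ⟨0, 0, 0, 0⟩
  n210 := ⟨0, 0, 0, 0⟩
  n300 := ⟨0, 0, 0, 0⟩
  n400 := ⟨0, 0, 0, 0⟩
  n500 := ⟨0, 0, 0, 0⟩
  e00 := ⟨0, 0, 0, 0⟩
  e01 := ⟨0, 0, 0, 0⟩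
  e02 := ⟨0, 0, 0, 0⟩
  e03 := ⟨0, 0, 0, 0⟩
  e10 := ⟨0, 0, 0, 0⟩
  e11 := ⟨0, 0, 0, 0⟩
  B1 := 0

def p4 : Pm where
  ec := ⟨114621939712, 0, 0, 0⟩
  bc := ⟨0, 0, 0, 0⟩
  nn := ⟨5497558138880, 0, 0, 0⟩
  tj := ⟨13194139533312, 0, 0, 0⟩
  ca := ⟨384936443904, 0, 0, 0⟩
  cb := ⟨0, 0, 0, 0⟩
  cc := ⟨0, 0, 0, 0⟩
  ax := ⟨2308974418944, 0, 0, 0⟩
  ay := ⟨91625969664, 0, 0, 0⟩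
  xa := ⟨4288095348224, 0, 0, 0⟩
  C2 := ⟨1327712154624, 0, 0, 0⟩
  wr := ⟨0, 946234982400, 0, 0⟩
  wi := ⟨5872294035456, 0, 0, 0⟩
  w1 := ⟨0, 4535485464576, 0, 0⟩
  h000 := ⟨0, 112292417920, 0, 0⟩
  h001 := ⟨64024346880, 0, 0, 0⟩
  h002 := ⟨0, 33810010432, 0, 0⟩
  h003 := ⟨2679238784, 0, 0, 0⟩
  h010 := ⟨0, 1231377189440, 0, 0⟩
  h011 := ⟨430572355136, 0, 0, 0⟩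
  h012 := ⟨0, 38983266880, 0, 0⟩
  h020 := ⟨240202372288, 0, 0, 0⟩
  h021 := ⟨6450256265280, 0, 0, 0⟩
  h030 := ⟨0, 29625738547008, 0, 0⟩
  h100 := ⟨13177875584, 0, 0, 0⟩
  h101 := ⟨0, 5980397184, 0, 0⟩
  h102 := ⟨0, 162226176, 0, 0⟩
  h110 := ⟨161662807104, 0, 0, 0⟩
  h111 := ⟨0, 149285636032, 0, 0⟩
  h120 := ⟨0, 74338941632, 0, 0⟩
  h200 := ⟨0, 527565568, 0, 0⟩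
  h201 := ⟨125404288, 0, 0, 0⟩
  h210 := ⟨0, 11029065088, 0, 0⟩
  h300 := ⟨0, 95452416, 0, 0⟩
  h400 := ⟨10674432, 0, 0, 0⟩
  m000 := ⟨1094346473472, 0, 0, 0⟩
  m001 := ⟨0, 968228864, 0, 0⟩
  m002 := ⟨62430838784, 0, 0, 0⟩
  m010 := ⟨0, 3174236160, 0, 0⟩
  m100 := ⟨64109805568, 0, 0, 0⟩
  m101 := ⟨1994194944, 0, 0, 0⟩
  m110 := ⟨621360709632, 0, 0, 0⟩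
  m200 := ⟨0, 1043267584, 0, 0⟩
  m300 := ⟨0, 70975488, 0, 0⟩
  a00 := ⟨50247499776, 0, 0, 0⟩
  a01 := ⟨0, 8087404544, 0, 0⟩
  a02 := ⟨0, 52204470272, 0, 0⟩
  a03 := ⟨0, 51247251456, 0, 0⟩
  a10 := ⟨251730395136, 0, 0, 0⟩
  a11 := ⟨0, 490509107200, 0, 0⟩
  b00 := ⟨0, 0, 0, 0⟩
  b01 := ⟨0, 0, 0, 0⟩
  b02 := ⟨0, 0, 0, 0⟩
  b03 := ⟨0, 0, 0, 0⟩
  b10 := ⟨0, 0, 0, 0⟩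
  b11 := ⟨0, 0, 0, 0⟩
  t00 := ⟨509173235712, 0, 0, 0⟩
  t01 := ⟨0, 118094299136, 0, 0⟩
  t02 := ⟨4279621713920, 0, 0, 0⟩
  t03 := ⟨0, 8021515501568, 0, 0⟩
  t10 := ⟨1445021024256, 0, 0, 0⟩
  t11 := ⟨4572181168128, 0, 0, 0⟩
  s00 := ⟨4100099211264, 0, 0, 0⟩
  s01 := ⟨1954212413440, 0, 0, 0⟩
  s02 := ⟨0, 1881159041024, 0, 0⟩
  s03 := ⟨2692811325440, 0, 0, 0⟩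
  s10 := ⟨0, 1624022319104, 0, 0⟩
  s11 := ⟨17379597877248, 0, 0, 0⟩
  g00 := ⟨299457937536, 0, 0, 0⟩
  g01 := ⟨0, 389164506368, 0, 0⟩
  g10 := ⟨3557182232064, 0, 0, 0⟩
  g11 := ⟨0, 0, 0, 0⟩
  f00 := ⟨2968280557248, 0, 0, 0⟩
  f01 := ⟨503056542592, 0, 0, 0⟩
  f10 := ⟨32651557279744, 0, 0, 0⟩
  f11 := ⟨0, 0, 0, 0⟩
  l000 := ⟨0, 0, 0, 0⟩
  l001 := ⟨0, 0, 0, 0⟩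
  l002 := ⟨0, 0, 0, 0⟩
  l010 := ⟨0, 0, 0, 0⟩
  l011 := ⟨0, 0, 0, 0⟩
  l020 := ⟨0, 0, 0, 0⟩
  l100 := ⟨0, 0, 0, 0⟩
  l101 := ⟨0, 0, 0, 0⟩
  l102 := ⟨0, 0, 0, 0⟩
  l110 := ⟨0, 0, 0, 0⟩
  l111 := ⟨0, 0, 0, 0⟩
  l120 := ⟨0, 0, 0, 0⟩
  l200 := ⟨0, 0, 0, 0⟩
  l201 := ⟨0, 0, 0, 0⟩
  l210 := ⟨0, 0, 0, 0⟩
  l300 := ⟨0, 0, 0, 0⟩
  l301 := ⟨0, 0, 0, 0⟩
  l310 := ⟨0, 0, 0, 0⟩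
  l400 := ⟨0, 0, 0, 0⟩
  l401 := ⟨0, 0, 0, 0⟩
  l410 := ⟨0, 0, 0, 0⟩
  l500 := ⟨0, 0, 0, 0⟩
  l600 := ⟨0, 0, 0, 0⟩
  l700 := ⟨0, 0, 0, 0⟩
  q00 := ⟨0, 0, 0, 0⟩
  q01 := ⟨0, 0, 0, 0⟩
  q02 := ⟨0, 0, 0, 0⟩
  q03 := ⟨0, 0, 0, 0⟩
  q10 := ⟨0, 0, 0, 0⟩
  q11 := ⟨0, 0, 0, 0⟩
  q12 := ⟨0, 0, 0, 0⟩
  q20 := ⟨0, 0, 0, 0⟩
  q21 := ⟨0, 0, 0, 0⟩
  q30 := ⟨0, 0, 0, 0⟩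
  n000 := ⟨0, 0, 0, 0⟩
  n001 := ⟨0, 0, 0, 0⟩
  n002 := ⟨0, 0, 0, 0⟩
  n010 := ⟨0, 0, 0, 0⟩
  n011 := ⟨0, 0, 0, 0⟩
  n020 := ⟨0, 0, 0, 0⟩
  n100 := ⟨0, 0, 0, 0⟩
  n101 := ⟨0, 0, 0, 0⟩
  n110 := ⟨0, 0, 0, 0⟩
  n200 := ⟨0, 0, 0, 0⟩
  n201 := ⟨0, 0, 0, 0⟩
  n210 := ⟨0, 0, 0, 0⟩
  n300 := ⟨0, 0, 0, 0⟩
  n400 := ⟨0, 0, 0, 0⟩
  n500 := ⟨0, 0, 0, 0⟩
  e00 := ⟨0, 0, 0, 0⟩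
  e01 := ⟨0, 0, 0, 0⟩
  e02 := ⟨0, 0, 0, 0⟩
  e03 := ⟨0, 0, 0, 0⟩
  e10 := ⟨0, 0, 0, 0⟩
  e11 := ⟨0, 0, 0, 0⟩
  B1 := 659706347520

def pF : Pm where
  ec := ⟨114621939712, 0, 0, 0⟩
  bc := ⟨0, 0, 0, 0⟩
  nn := ⟨0, 0, 0, 0⟩
  tj := ⟨2199023255552, 0, 0, 0⟩
  ca := ⟨1099511627776, 0, 0, 0⟩
  cb := ⟨0, 0, 0, 0⟩
  cc := ⟨879662989312, 0, 0, 0⟩
  ax := ⟨0, 0, 0, 0⟩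
  ay := ⟨0, 0, 0, 0⟩
  xa := ⟨0, 0, 0, 0⟩
  C2 := ⟨0, 0, 0, 0⟩
  wr := ⟨0, 946234982400, 0, 0⟩
  wi := ⟨5872294035456, 0, 0, 0⟩
  w1 := ⟨0, 4535485464576, 0, 0⟩
  h000 := ⟨0, 112292417920, 0, 0⟩
  h001 := ⟨64024346880, 0, 0, 0⟩
  h002 := ⟨0, 33810010432, 0, 0⟩
  h003 := ⟨2679238784, 0, 0, 0⟩
  h010 := ⟨0, 1231377189440, 0, 0⟩
  h011 := ⟨430572355136, 0, 0, 0⟩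
  h012 := ⟨0, 38983266880, 0, 0⟩
  h020 := ⟨240202372288, 0, 0, 0⟩
  h021 := ⟨6450256265280, 0, 0, 0⟩
  h030 := ⟨0, 29625738547008, 0, 0⟩
  h100 := ⟨13177875584, 0, 0, 0⟩
  h101 := ⟨0, 5980397184, 0, 0⟩
  h102 := ⟨0, 162226176, 0, 0⟩
  h110 := ⟨161662807104, 0, 0, 0⟩
  h111 := ⟨0, 149285636032, 0, 0⟩
  h120 := ⟨0, 74338941632, 0, 0⟩
  h200 := ⟨0, 527565568, 0, 0⟩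
  h201 := ⟨125404288, 0, 0, 0⟩
  h210 := ⟨0, 11029065088, 0, 0⟩
  h300 := ⟨0, 95452416, 0, 0⟩
  h400 := ⟨10674432, 0, 0, 0⟩
  m000 := ⟨0, 0, 0, 0⟩
  m001 := ⟨0, 0, 0, 0⟩
  m002 := ⟨0, 0, 0, 0⟩
  m010 := ⟨0, 0, 0, 0⟩
  m100 := ⟨0, 0, 0, 0⟩
  m101 := ⟨0, 0, 0, 0⟩
  m110 := ⟨0, 0, 0, 0⟩
  m200 := ⟨0, 0, 0, 0⟩
  m300 := ⟨0, 0, 0, 0⟩
  a00 := ⟨80929751040, 0, 0, 0⟩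
  a01 := ⟨114576261120, 0, 0, 0⟩
  a02 := ⟨0, 593234427904, 0, 0⟩
  a03 := ⟨152704450560, 0, 0, 0⟩
  a10 := ⟨232781185024, 0, 0, 0⟩
  a11 := ⟨0, 1097389899776, 0, 0⟩
  b00 := ⟨0, 0, 0, 0⟩
  b01 := ⟨0, 0, 0, 0⟩
  b02 := ⟨0, 0, 0, 0⟩
  b03 := ⟨0, 0, 0, 0⟩
  b10 := ⟨0, 0, 0, 0⟩
  b11 := ⟨0, 0, 0, 0⟩
  t00 := ⟨1327838658560, 0, 0, 0⟩
  t01 := ⟨1427614072832, 0, 0, 0⟩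
  t02 := ⟨3605500067840, 0, 0, 0⟩
  t03 := ⟨0, 16427901386752, 0, 0⟩
  t10 := ⟨0, 4184561745920, 0, 0⟩
  t11 := ⟨0, 390961496064, 0, 0⟩
  s00 := ⟨0, 0, 0, 0⟩
  s01 := ⟨0, 0, 0, 0⟩
  s02 := ⟨0, 0, 0, 0⟩
  s03 := ⟨0, 0, 0, 0⟩
  s10 := ⟨0, 0, 0, 0⟩
  s11 := ⟨0, 0, 0, 0⟩
  g00 := ⟨299457937536, 0, 0, 0⟩
  g01 := ⟨0, 389164506368, 0, 0⟩
  g10 := ⟨3557182232064, 0, 0, 0⟩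
  g11 := ⟨0, 0, 0, 0⟩
  f00 := ⟨2968280557248, 0, 0, 0⟩
  f01 := ⟨503056542592, 0, 0, 0⟩
  f10 := ⟨32651557279744, 0, 0, 0⟩
  f11 := ⟨0, 0, 0, 0⟩
  l000 := ⟨3568807858240, 0, 0, 0⟩
  l001 := ⟨93418899264, 0, 0, 0⟩
  l002 := ⟨0, 53988152960, 0, 0⟩
  l010 := ⟨3493862172544, 0, 0, 0⟩
  l011 := ⟨24869097728, 0, 0, 0⟩
  l020 := ⟨0, 3142172768128, 0, 0⟩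
  l100 := ⟨655839999680, 0, 0, 0⟩
  l101 := ⟨0, 206014811776, 0, 0⟩
  l102 := ⟨0, 196088089920, 0, 0⟩
  l110 := ⟨0, 17520412268928, 0, 0⟩
  l111 := ⟨0, 1410686757952, 0, 0⟩
  l120 := ⟨0, 12917825902976, 0, 0⟩
  l200 := ⟨0, 719246439552, 0, 0⟩
  l201 := ⟨350159114240, 0, 0, 0⟩
  l210 := ⟨0, 40842765312, 0, 0⟩
  l300 := ⟨0, 73813301312, 0, 0⟩
  l301 := ⟨0, 283530426176, 0, 0⟩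
  l310 := ⟨0, 6985335024512, 0, 0⟩
  l400 := ⟨1494696711424, 0, 0, 0⟩
  l401 := ⟨116709115776, 0, 0, 0⟩
  l410 := ⟨0, 2256147790784, 0, 0⟩
  l500 := ⟨0, 2922333129792, 0, 0⟩
  l600 := ⟨2288761267456, 0, 0, 0⟩
  l700 := ⟨0, 1103075507712, 0, 0⟩
  q00 := ⟨0, 440894912, 0, 0⟩
  q01 := ⟨66802931904, 0, 0, 0⟩
  q02 := ⟨2742081830272, 0, 0, 0⟩
  q03 := ⟨0, 5327681825472, 0, 0⟩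
  q10 := ⟨0, 762522937600, 0, 0⟩
  q11 := ⟨11013807476416, 0, 0, 0⟩
  q12 := ⟨0, 16333491920256, 0, 0⟩
  q20 := ⟨11621744013440, 0, 0, 0⟩
  q21 := ⟨0, 28539489790976, 0, 0⟩
  q30 := ⟨0, 759573443010944, 0, 0⟩
  n000 := ⟨1100493422592, 0, 0, 0⟩
  n001 := ⟨0, 2955608064, 0, 0⟩
  n002 := ⟨107146313728, 0, 0, 0⟩
  n010 := ⟨0, 493504102400, 0, 0⟩
  n011 := ⟨967053541376, 0, 0, 0⟩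
  n020 := ⟨3594007281664, 0, 0, 0⟩
  n100 := ⟨140808355840, 0, 0, 0⟩
  n101 := ⟨16778592256, 0, 0, 0⟩
  n110 := ⟨4871902789632, 0, 0, 0⟩
  n200 := ⟨660878065664, 0, 0, 0⟩
  n201 := ⟨0, 2745630720, 0, 0⟩
  n210 := ⟨0, 2196212875264, 0, 0⟩
  n300 := ⟨0, 761017401344, 0, 0⟩
  n400 := ⟨443954495488, 0, 0, 0⟩
  n500 := ⟨0, 104699396096, 0, 0⟩
  e00 := ⟨105750265856, 0, 0, 0⟩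
  e01 := ⟨247679025152, 0, 0, 0⟩
  e02 := ⟨926203969536, 0, 0, 0⟩
  e03 := ⟨0, 4284988456960, 0, 0⟩
  e10 := ⟨111974219776, 0, 0, 0⟩
  e11 := ⟨0, 656633430016, 0, 0⟩
  B1 := 0

end Pool.Agent.helper12.KD
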