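import Pool.Agent.helper12.GP.FAQP
import Pool.Agent.helper12.GP.FBQP
import Pool.Agent.helper12.GP.LBQP
import Pool.Agent.helper12.KD.P

/-!
Generated certificates.
-/

namespace Pool.Agent.helper12.KD

open Pool.Agent.helper31.IX (Cov cov_split)
open Pool.Agent.helper12.GP
open Pool.Agent.helper14.QF (cov_E)

mutual
theorem N4B2_t3 : Cov 1 (LBQ.prog0 p4) [(97352286208, 5726666752), (225399799808, 49478107136), (241591910400, 241591910400)] :=
  cov_E (LBQ.chkB0_eq p4) (.n 1 (.n 2 (.n 2 .l .l) (.n 1 (.n 2 .l .l) (.n 2 .l .l))) (.n 1 (.n 2 (.n 2 .l .l) (.n 2 .l (.n 0 .l .l))) (.n 2 (.n 2 .l .l) (.n 2 (.n 0 .l .l) (.n 2 .l (.n 0 .l .l))))))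
    [(97352286208, 5726666752), (225399799808, 49478107136), (241591910400, 241591910400)] rfl (by decide +kernel)
theorem N4B2_t5 : Cov 1 (LBQ.prog0 p4) [(108805619712, 5726666752), (200660746240, 24739053568), (241591910400, 241591910400)] :=
  cov_E (LBQ.chkB0_eq p4) (.n 2 (.n 2 .l (.n 0 .l .l)) (.n 1 (.n 2 .l .l) (.n 2 .l (.n 0 .l .l))))
    [(108805619712, 5726666752), (200660746240, 24739053568), (241591910400, 241591910400)] rfl (by decide +kernel)
end

mutual
theorem N4B2_t6 : Cov 1 (LBQ.prog0 p4) [(108805619712, 5726666752), (250138853376, 24739053568), (241591910400, 241591910400)] :=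
  cov_E (LBQ.chkB0_eq p4) (.n 1 (.n 2 (.n 2 .l .l) (.n 2 (.n 0 .l .l) (.n 2 .l (.n 0 .l .l)))) (.n 2 (.n 2 .l (.n 0 .l .l)) (.n 2 (.n 2 .l .l) (.n 0 (.n 2 .l .l) (.n 2 .l (.n 0 .l .l))))))
    [(108805619712, 5726666752), (250138853376, 24739053568), (241591910400, 241591910400)] rfl (by decide +kernel)
theorem N4B2_t7 : Cov 1 (LBQ.prog0 p4) [(125985619968, 11453333504), (200660746240, 24739053568), (241591910400, 241591910400)] :=
  cov_E (LBQ.chkB0_eq p4) (.n 1 (.n 2 (.n 2 .l (.n 0 .l .l)) (.n 0 (.n 2 .l (.n 0 .l .l)) (.n 2 .l (.n 0 .l .l)))) (.n 0 (.n 2 (.n 2 .l .l) (.n 2 (.n 0 .l .l) (.n 2 .l .l))) (.n 2 (.n 2 .l .l) (.n 2 (.n 0 .l .l) (.n 2 .l (.n 0 .l .l))))))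
    [(125985619968, 11453333504), (200660746240, 24739053568), (241591910400, 241591910400)] rfl (by decide +kernel)
end

mutual
theorem N4B2_t9 : Cov 1 (LBQ.prog0 p4) [(120258953216, 5726666752), (250138853376, 24739053568), (241591910400, 241591910400)] :=
  cov_E (LBQ.chkB0_eq p4) (.n 1 (.n 2 (.n 2 .l (.n 0 .l .l)) (.n 2 (.n 2 .l .l) (.n 0 (.n 2 .l .l) (.n 2 .l .l)))) (.n 2 (.n 2 (.n 0 .l .l) (.n 2 .l .l)) (.n 0 (.n 2 (.n 2 .l .l) (.n 2 .l (.n 1 .l .l))) (.n 2 (.n 2 .l .l) (.n 1 (.n 2 .l .l) (.n 2 .l .l))))))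
    [(120258953216, 5726666752), (250138853376, 24739053568), (241591910400, 241591910400)] rfl (by decide +kernel)
theorem N4B2_t11 : Cov 1 (LBQ.prog0 p4) [(131712286720, 5726666752), (237769326592, 12369526784), (241591910400, 241591910400)] :=
  cov_E (LBQ.chkB0_eq p4) (.n 2 (.n 2 .l (.n 1 .l .l)) (.n 2 (.n 2 .l (.n 0 .l .l)) (.n 1 (.n 2 .l .l) (.n 2 .l (.n 0 .l .l)))))
    [(131712286720, 5726666752), (237769326592, 12369526784), (241591910400, 241591910400)] rfl (by decide +kernel)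
end

mutual
theorem N4B2_t12 : Cov 1 (LBQ.prog0 p4) [(131712286720, 5726666752), (262508380160, 12369526784), (241591910400, 241591910400)] :=
  cov_E (LBQ.chkB0_eq p4) (.n 2 (.n 2 (.n 1 .l .l) (.n 2 .l (.n 0 .l .l))) (.n 1 (.n 2 (.n 2 .l .l) (.n 2 (.n 0 .l .l) (.n 2 .l .l))) (.n 2 (.n 2 .l (.n 0 .l .l)) (.n 2 (.n 2 .l .l) (.n 0 (.n 0 .l .l) (.n 2 .l .l))))))
    [(131712286720, 5726666752), (262508380160, 12369526784), (241591910400, 241591910400)] rfl (by decide +kernel)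
theorem FA : Cov 1 (FAQ.prog0 pF) [(114532286464, 22906667008), (27487895552, 27487895552), (549755813888, 549755813888)] :=
  cov_E (FAQ.chkB0_eq pF) (.n 1 (.n 1 (.n 2 (.n 2 .l .l) (.n 2 .l .l)) (.n 2 (.n 2 .l .l) (.n 2 .l .l))) (.n 2 (.n 2 (.n 2 .l (.n 0 .l .l)) (.n 0 (.n 0 .l .l) (.n 1 .l .l))) (.n 0 (.n 1 (.n 2 .l .l) (.n 2 .l .l)) (.n 1 (.n 2 .l .l) (.n 2 .l .l)))))
    [(114532286464, 22906667008), (27487895552, 27487895552), (549755813888, 549755813888)] rfl (by decide +kernel)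
end

mutual
theorem FB_t3 : Cov 1 (FBQ.prog0 pF) [(114532286464, 22906667008), (34359738368, 34359738368), (549755813888, 549755813888)] :=
  cov_E (FBQ.chkB0_eq pF) (.n 1 (.n 2 (.n 2 .l .l) (.n 2 .l .l)) (.n 2 (.n 2 .l (.n 0 .l .l)) (.n 0 (.n 1 .l .l) (.n 1 .l .l))))
    [(114532286464, 22906667008), (34359738368, 34359738368), (549755813888, 549755813888)] rfl (by decide +kernel)
theorem FB_t4 : Cov 1 (FBQ.prog0 pF) [(114532286464, 22906667008), (103079215104, 34359738368), (549755813888, 549755813888)] :=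
  cov_E (FBQ.chkB0_eq pF) (.n 0 (.n 2 (.n 2 .l (.n 0 .l .l)) (.n 1 (.n 2 .l .l) (.n 2 .l .l))) (.n 2 (.n 2 .l (.n 1 .l .l)) (.n 1 (.n 2 .l .l) (.n 2 .l .l))))
    [(114532286464, 22906667008), (103079215104, 34359738368), (549755813888, 549755813888)] rfl (by decide +kernel)
end

mutual
theorem FB_t5 : Cov 1 (FBQ.prog0 pF) [(103078952960, 11453333504), (206158430208, 68719476736), (549755813888, 549755813888)] :=
  cov_E (FBQ.chkB0_eq pF) (.n 1 (.n 2 (.n 2 .l (.n 1 .l .l)) (.n 1 (.n 2 .l .l) (.n 2 .l .l))) (.n 1 (.n 2 (.n 2 .l .l) (.n 2 .l .l)) (.n 2 (.n 2 .l .l) (.n 0 (.n 2 .l .l) (.n 2 .l .l)))))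
    [(103078952960, 11453333504), (206158430208, 68719476736), (549755813888, 549755813888)] rfl (by decide +kernel)
theorem FB_t6 : Cov 1 (FBQ.prog0 pF) [(125985619968, 11453333504), (206158430208, 68719476736), (549755813888, 549755813888)] :=
  cov_E (FBQ.chkB0_eq pF) (.n 1 (.n 1 (.n 2 (.n 2 .l .l) (.n 2 .l .l)) (.n 2 (.n 2 .l .l) (.n 2 .l .l))) (.n 1 (.n 2 (.n 2 .l .l) (.n 2 .l .l)) (.n 2 (.n 2 .l .l) (.n 2 .l .l))))
    [(125985619968, 11453333504), (206158430208, 68719476736), (549755813888, 549755813888)] rfl (by decide +kernel)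
end

theorem N4B2_t4 : Cov 1 (LBQ.prog0 p4) [(108805619712, 5726666752), (225399799808, 49478107136), (241591910400, 241591910400)] :=
  cov_split 1 (by decide +kernel) N4B2_t5 N4B2_t6

theorem N4B2_t1 : Cov 1 (LBQ.prog0 p4) [(103078952960, 11453333504), (225399799808, 49478107136), (241591910400, 241591910400)] :=
  cov_split 0 (by decide +kernel) N4B2_t3 N4B2_t4

theorem N4B2_t10 : Cov 1 (LBQ.prog0 p4) [(131712286720, 5726666752), (250138853376, 24739053568), (241591910400, 241591910400)] :=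
  cov_split 1 (by decide +kernel) N4B2_t11 N4B2_t12

theorem N4B2_t8 : Cov 1 (LBQ.prog0 p4) [(125985619968, 11453333504), (250138853376, 24739053568), (241591910400, 241591910400)] :=
  cov_split 0 (by decide +kernel) N4B2_t9 N4B2_t10

theorem N4B2_t2 : Cov 1 (LBQ.prog0 p4) [(125985619968, 11453333504), (225399799808, 49478107136), (241591910400, 241591910400)] :=
  cov_split 1 (by decide +kernel) N4B2_t7 N4B2_t8

theorem N4B2 : Cov 1 (LBQ.prog0 p4) [(114532286464, 22906667008), (225399799808, 49478107136), (241591910400, 241591910400)] :=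
  cov_split 0 (by decide +kernel) N4B2_t1 N4B2_t2

theorem FB_t1 : Cov 1 (FBQ.prog0 pF) [(114532286464, 22906667008), (68719476736, 68719476736), (549755813888, 549755813888)] :=
  cov_split 1 (by decide +kernel) FB_t3 FB_t4

theorem FB_t2 : Cov 1 (FBQ.prog0 pF) [(114532286464, 22906667008), (206158430208, 68719476736), (549755813888, 549755813888)] :=
  cov_split 0 (by decide +kernel) FB_t5 FB_t6

theorem FB : Cov 1 (FBQ.prog0 pF) [(114532286464, 22906667008), (137438953472, 137438953472), (549755813888, 549755813888)] :=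
  cov_split 1 (by decide +kernel) FB_t1 FB_t2

end Pool.Agent.helper12.KD
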